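import Pool.Agent.Helper14.AY.GoalsB

/-! # AY, packet DQB: difference quotients -/

open Complex Metric Set Filter Topology MeasureTheory
open scoped ContDiff ComplexConjugate ComplexOrder Manifold Matrix

namespace Pool.Agent.Helper7.AY

open Pool.Agent.Helper95.Lin Pool.Agent.Helper16.Abund Pool.Agent.Helper92.Orb Pool.Agent.Helper10.SP
  Pool.Agent.Helper95.RK Pool.Agent.Helper57.HS Pool.Agent.Helper14.AY

theorem dqb : S_DQB := by
  intro n E _ _ a K h r x₀ e f ha ha1 hK hh hr hf hCB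
  obtain ⟨hb, hH⟩ := hCB
  have hB : IsOpen (ball x₀ (2 * r)) := isOpen_ball
  have he0 : 0 ≤ h * ‖e‖ := mul_nonneg hh.le (norm_nonneg e)
  have hr0 : 0 < r := lt_of_le_of_lt he0 hr
  have hmem : ∀ x ∈ ball x₀ r, ∀ s ∈ Icc (0 : ℝ) 1, x + (s * h) • e ∈ ball x₀ (2 * r) := by
    intro x hx s hs
    rw [mem_ball, dist_eq_norm] at hx ⊢
    have e1 : x + (s * h) • e - x₀ = (x - x₀) + (s * h) • e := by abel
    have e2 : ‖(s * h) • e‖ ≤ h * ‖e‖ := by
      rw [norm_smul, Real.norm_eq_abs, abs_of_nonneg (mul_nonneg hs.1 hh.le)]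
      have : s * h ≤ h := by nlinarith [hs.2]
      exact mul_le_mul_of_nonneg_right this (norm_nonneg e)
    rw [e1]
    have := norm_add_le (x - x₀) ((s * h) • e)
    linarith
  have hmem0 : ∀ x ∈ ball x₀ r, x ∈ ball x₀ (2 * r) := by
    intro x hx
    have := hmem x hx 0 ⟨le_rfl, zero_le_one⟩
    simpa using this
  have hmem1 : ∀ x ∈ ball x₀ r, x + h • e ∈ ball x₀ (2 * r) := by
    intro x hx
    have := hmem x hx 1 ⟨zero_le_one, le_rfl⟩
    simpa using this
  have hd : ∀ x ∈ ball x₀ (2 * r), HasFDerivAt f (fderiv ℝ f x) x := fun x hx =>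
    ((hf.differentiableOn (by simp)).differentiableAt (hB.mem_nhds hx)).hasFDerivAt
  -- the curves
  have hcur : ∀ x ∈ ball x₀ r, ∀ s ∈ Icc (0 : ℝ) 1, HasDerivAt (fun s : ℝ => f (x + (s * h) • e))
      (fderiv ℝ f (x + (s * h) • e) (h • e)) s := by
    intro x hx s hs
    have h1 : HasDerivAt (fun s : ℝ => x + (s * h) • e) (h • e) s := by
      have h2 : HasDerivAt (fun s : ℝ => (s * h) • e) ((1 * h) • e) s :=
        ((hasDerivAt_id s).mul_const h).smul_const e
      rw [one_mul] at h2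
      exact h2.const_add x
    exact (hd _ (hmem x hx s hs)).comp_hasDerivAt s h1
  refine ⟨?_, ⟨?_, ?_⟩, ?_⟩
  · -- smoothness
    have h1 : ContDiffOn ℝ 1 (fun x => f (x + h • e)) (ball x₀ r) :=
      hf.comp (contDiff_id.add contDiff_const).contDiffOn hmem1
    have h2 : ContDiffOn ℝ 1 f (ball x₀ r) := hf.mono hmem0
    exact (h1.sub h2).const_smul h⁻¹
  · intro x hx
    have h1 := norm_image_sub_le_of_norm_deriv_le_segment_01' (f := fun s : ℝ => f (x + (s * h) • e))
      (f' := fun s => fderiv ℝ f (x + (s * h) • e) (h • e)) (C := K * (h * ‖e‖))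
      (fun s hs => (hcur x hx s hs).hasDerivWithinAt) (fun s hs => ?_)
    · simp only [one_mul, zero_mul, zero_smul, add_zero] at h1
      unfold dq
      rw [norm_smul, norm_inv, Real.norm_eq_abs, abs_of_pos hh, inv_mul_le_iff₀ hh]
      linarith [h1]
    · have h2 := ContinuousLinearMap.le_opNorm (fderiv ℝ f (x + (s * h) • e)) (h • e)
      rw [norm_smul, Real.norm_eq_abs, abs_of_pos hh] at h2
      exact h2.trans (mul_le_mul_of_nonneg_right (hb _ (hmem x hx s ⟨hs.1, hs.2.le⟩)) he0)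
  · intro x hx y hy
    have hs : 0 ≤ ‖x - y‖ ^ a := Real.rpow_nonneg (norm_nonneg _) a
    have h1 := norm_image_sub_le_of_norm_deriv_le_segment_01'
      (f := fun s : ℝ => f (x + (s * h) • e) - f (y + (s * h) • e))
      (f' := fun s => fderiv ℝ f (x + (s * h) • e) (h • e) -
        fderiv ℝ f (y + (s * h) • e) (h • e)) (C := K * ‖x - y‖ ^ a * (h * ‖e‖))
      (fun s hs => ((hcur x hx s hs).sub (hcur y hy s hs)).hasDerivWithinAt) (fun s hs => ?_)
    · simp only [one_mul, zero_mul, zero_smul, add_zero] at h1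
      unfold dq
      rw [← smul_sub, norm_smul, norm_inv, Real.norm_eq_abs, abs_of_pos hh, inv_mul_le_iff₀ hh]
      have e1 : f (x + h • e) - f x - (f (y + h • e) - f y) =
          f (x + h • e) - f (y + h • e) - (f x - f y) := by abel
      rw [e1]
      linarith [h1]
    · rw [← _root_.sub_apply]
      have h2 := ContinuousLinearMap.le_opNorm
        (fderiv ℝ f (x + (s * h) • e) - fderiv ℝ f (y + (s * h) • e)) (h • e)
      rw [norm_smul, Real.norm_eq_abs, abs_of_pos hh] at h2
      refine h2.trans (mul_le_mul_of_nonneg_right ?_ he0)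
      have h3 := hH _ (hmem x hx s ⟨hs.1, hs.2.le⟩) _ (hmem y hy s ⟨hs.1, hs.2.le⟩)
      rwa [add_sub_add_right_eq_sub] at h3
  · intro x hx
    have h1 : HasFDerivAt (fun x => f (x + h • e)) (fderiv ℝ f (x + h • e)) x := by
      have h2 : HasFDerivAt (fun x : Cn n => x + h • e) (ContinuousLinearMap.id ℝ (Cn n)) x :=
        (hasFDerivAt_id x).add_const (h • e)
      have h3 := (hd _ (hmem1 x hx)).comp x h2
      rwa [ContinuousLinearMap.comp_id] at h3
    have h2 : HasFDerivAt (dq e h f) (h⁻¹ • (fderiv ℝ f (x + h • e) - fderiv ℝ f x)) x :=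
      (h1.sub (hd _ (hmem0 x hx))).const_smul h⁻¹
    exact h2.fderiv

end Pool.Agent.Helper7.AY
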